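import Pool.Agent.Helper31.JE.MainAll

/-! From `PP` to the frozen statement. -/

open MeasureTheory Filter Topology Finset
open scoped BigOperators ComplexConjugate

namespace Pool.Agent.JE.H31

section
variable {X : Type} [MeasurableSpace X] {μ : Measure X}

theorem mp_zpow (T : X ≃ᵐ X) (hT : MeasurePreserving T μ μ) (k : ℤ) :
    MeasurePreserving (⇑((T.toEquiv : Equiv.Perm X) ^ k)) μ μ := by
  have h1 : ∀ n : ℕ, MeasurePreserving (⇑((T.toEquiv : Equiv.Perm X) ^ (n : ℤ))) μ μ := by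
    intro n
    rw [zpow_natCast, ← Equiv.Perm.iterate_eq_pow]
    exact hT.iterate n
  have h2 : ∀ n : ℕ, MeasurePreserving (⇑((T.toEquiv : Equiv.Perm X) ^ (-(n : ℤ)))) μ μ := by
    intro n
    rw [zpow_neg, zpow_natCast, ← inv_pow, ← Equiv.Perm.iterate_eq_pow]
    exact (MeasurePreserving.symm T hT).iterate n
  rcases Int.eq_nat_or_neg k with ⟨n, rfl | rfl⟩
  · exact h1 n
  · exact h2 n

/-- the action of the integers generated by `T` -/
def actOf (T : X ≃ᵐ X) (hT : MeasurePreserving T μ μ) : Act X μ where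
  S := fun k => ⇑((T.toEquiv : Equiv.Perm X) ^ k)
  zero := fun x => by simp
  add := fun a b x => by
    rw [zpow_add]
    rfl
  mp := mp_zpow T hT

theorem actOf_nat (T : X ≃ᵐ X) (hT : MeasurePreserving T μ μ) (n : ℕ) :
    (actOf T hT).S (n : ℤ) = (⇑T)^[n] := by
  show ⇑((T.toEquiv : Equiv.Perm X) ^ (n : ℤ)) = _
  rw [zpow_natCast, ← Equiv.Perm.iterate_eq_pow]
  rfl

theorem exists_bdd (f : X → ℝ) (hf : MemLp f ⊤ μ) :
    ∃ (C : ℝ) (g : X → ℂ), Bdd g ∧ ∀ᵐ x ∂μ, (f x : ℂ) = C * g x := by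
  classical
  set C : ℝ := (eLpNorm f ⊤ μ).toReal + 1 with hC
  have hC0 : 0 < C := by positivity
  have hae : ∀ᵐ x ∂μ, ‖f x‖ ≤ C := by
    have h1 := ae_le_eLpNormEssSup (f := f) (μ := μ)
    filter_upwards [h1] with x hx
    have h2 : ‖f x‖ₑ ≤ eLpNorm f ⊤ μ := by simpa using hx
    have h3 := ENNReal.toReal_mono hf.2.ne h2
    rw [toReal_enorm] at h3
    linarith
  set f' := hf.1.mk f with hf'
  have hf'm : Measurable f' := hf.1.stronglyMeasurable_mk.measurable
  refine ⟨C, fun x => if ‖f' x‖ ≤ C then ((f' x / C : ℝ) : ℂ) else 0, ⟨?_, fun x => ?_⟩, ?_⟩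
  · refine Measurable.ite (measurableSet_le hf'm.norm measurable_const) ?_ measurable_const
    exact Complex.measurable_ofReal.comp (hf'm.div_const C)
  · split_ifs with h
    · rw [Complex.norm_real, norm_div, Real.norm_of_nonneg hC0.le]
      exact (div_le_one hC0).mpr h
    · simp
  · filter_upwards [hae, hf.1.ae_eq_mk] with x hx hx'
    rw [← hf'] at hx'
    rw [← hx', if_pos hx, ← Complex.ofReal_mul]
    congr 1
    field_simp

theorem final_of [IsProbabilityMeasure μ] (k : ℕ) (c : Fin k → ℝ) (hc : Function.Injective c)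
    (T : X ≃ᵐ X) (hT : MeasurePreserving T μ μ)
    (hP : PP (actOf T hT) (Finset.univ.image c) ∅)
    (f : Fin k → X → ℝ) (hf : ∀ i, MemLp (f i) ⊤ μ) :
    Tendsto (fun N : ℕ => ∫ x, ((1 / (N : ℝ)) * ∑ n ∈ Finset.Icc 1 N,
                ∏ i, f i ((⇑T)^[⌊(n : ℝ) ^ (c i)⌋₊ ^ 2] x)
                - ∏ i, ∫ y, f i y ∂μ) ^ 2 ∂μ) atTop (𝓝 0) := by
  classical
  set A := actOf T hT with hA
  choose C g hg hfg using fun i => exists_bdd (f i) (hf i)
  set F : ℝ → X → ℂ := Function.extend c g (fun _ _ => 0) with hF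
  have hFc : ∀ i, F (c i) = g i := fun i => hc.extend_apply _ _ _
  have hFb : ∀ b, Bdd (F b) := by
    intro b
    by_cases hb : ∃ i, c i = b
    · obtain ⟨i, rfl⟩ := hb
      rw [hFc]
      exact hg i
    · rw [hF, Function.extend_apply' _ _ _ hb]
      exact Bdd.const (by simp)
  set bb : ℕ → X → ℂ := fun n x => ∏ i, g i ((⇑T)^[⌊(n : ℝ) ^ (c i)⌋₊ ^ 2] x) with hbb
  set L : ℂ := ∏ i, ∫ y, g i y ∂μ with hL
  set K : ℂ := ∏ i, (C i : ℂ) with hK
  have hprod : ∀ n x, ∏ b ∈ Finset.univ.image c, F b (A.S (sq b n) x) = bb n x := by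
    intro n x
    rw [Finset.prod_image (fun i _ j _ h => hc h)]
    refine Finset.prod_congr rfl fun i _ => ?_
    rw [hFc]
    have h1 : sq (c i) n = ((⌊(n : ℝ) ^ (c i)⌋₊ ^ 2 : ℕ) : ℤ) := by
      unfold sq; push_cast; rfl
    rw [h1, hA, actOf_nat]
  have hprod' : ∏ b ∈ Finset.univ.image c, ∫ y, F b y ∂μ = L := by
    rw [Finset.prod_image (fun i _ j _ h => hc h)]
    exact Finset.prod_congr rfl fun i _ => by rw [hFc]
  have h1 := hP F hFb (fun _ => 0) (by simp)
  simp only [Finset.notMem_empty, IsEmpty.forall_iff, implies_true, if_true, one_mul,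
    Finset.prod_empty, hprod, hprod'] at h1
  have hbbb : ∀ n, Bdd (bb n) := by
    intro n
    have := Bdd.prod (Finset.univ.image c) (fun b x => F b (A.S (sq b n) x))
      fun b _ => (hFb b).comp A _
    simp only [hprod] at this
    exact this
  -- the averages over `1 ≤ n ≤ N`
  set D : ℕ → X → ℂ := fun N x => (1 / (N : ℂ)) * ∑ n ∈ Finset.Icc 1 N, bb n x - L with hD
  have hDeq : ∀ N, 1 ≤ N → ∀ x, D N x = (avg N (fun n => bb n x) - L) +
      (N : ℂ)⁻¹ * (bb N x - bb 0 x) := by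
    intro N hN x
    have h2 : ∑ n ∈ Finset.Icc 1 N, bb n x = ∑ n ∈ range N, bb n x + bb N x - bb 0 x := by
      have h3 : Finset.Icc 1 N = (range (N + 1)).erase 0 := by
        ext n
        simp only [Finset.mem_Icc, Finset.mem_erase, Finset.mem_range]
        omega
      rw [h3, ← Finset.sum_range_succ, Finset.sum_erase_eq_sub (by simp)]
    rw [hD]
    simp only
    rw [h2]
    unfold avg
    beta_reduce
    ring
  have hn2 : Tendsto (fun N => n2 μ (D N)) atTop (𝓝 0) := by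
    have h2 : Tendsto (fun N : ℕ => n2 μ (fun x => avg N (fun n => bb n x) - L) +
        2 * (N : ℝ)⁻¹) atTop (𝓝 0) := by
      have := h1.add (tendsto_inv_atTop_nhds_zero_nat (𝕜 := ℝ) |>.const_mul 2)
      simpa using this
    refine squeeze_zero' (Eventually.of_forall fun _ => n2_nonneg _) ?_ h2
    filter_upwards [eventually_ge_atTop 1] with N hN
    have h3 : D N = fun x => (avg N (fun n => bb n x) - L) + (N : ℂ)⁻¹ * (bb N x - bb 0 x) := by
      funext x
      exact hDeq N hN x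
    rw [h3]
    have b1 : BM (fun x => avg N (fun n => bb n x) - L) :=
      (BM.avg N bb fun n => (hbbb n).bm).sub (BM.const _)
    have b2 : BM (fun x => bb N x - bb 0 x) := (hbbb N).bm.sub (hbbb 0).bm
    refine (n2_add_le b1 ((BM.const _).mul b2)).trans ?_
    rw [n2_smul, norm_inv, Complex.norm_natCast, mul_comm (2 : ℝ)]
    gcongr
    refine (n2_sub_le (hbbb N).bm (hbbb 0).bm).trans ?_
    have e1 := n2_le_one (μ := μ) (hbbb N).le
    have e2 := n2_le_one (μ := μ) (hbbb 0).le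
    linarith
  have hmain : ∀ N : ℕ, ∫ x, ((1 / (N : ℝ)) * ∑ n ∈ Finset.Icc 1 N,
                ∏ i, f i ((⇑T)^[⌊(n : ℝ) ^ (c i)⌋₊ ^ 2] x)
                - ∏ i, ∫ y, f i y ∂μ) ^ 2 ∂μ = (‖K‖ * n2 μ (D N)) ^ 2 := by
    intro N
    rw [← n2_smul, n2_sq]
    refine integral_congr_ae ?_
    have h2 : ∀ᵐ x ∂μ, ∀ i, ∀ m : ℕ, (f i ((⇑T)^[m] x) : ℂ) = C i * g i ((⇑T)^[m] x) := by
      rw [ae_all_iff]
      intro i
      rw [ae_all_iff]
      intro m
      exact (hT.iterate m).quasiMeasurePreserving.ae (hfg i)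
    filter_upwards [h2] with x hx
    have h3 : ∀ n : ℕ, ((∏ i, f i ((⇑T)^[⌊(n : ℝ) ^ (c i)⌋₊ ^ 2] x) : ℝ) : ℂ) = K * bb n x := by
      intro n
      rw [Complex.ofReal_prod, hK, hbb]
      simp only
      rw [← Finset.prod_mul_distrib]
      exact Finset.prod_congr rfl fun i _ => hx i _
    have h4 : ((∏ i, ∫ y, f i y ∂μ : ℝ) : ℂ) = K * L := by
      rw [Complex.ofReal_prod, hK, hL, ← Finset.prod_mul_distrib]
      refine Finset.prod_congr rfl fun i _ => ?_
      rw [← integral_complex_ofReal, ← integral_const_mul]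
      exact integral_congr_ae (hfg i)
    have h5 : (((1 / (N : ℝ)) * ∑ n ∈ Finset.Icc 1 N,
                ∏ i, f i ((⇑T)^[⌊(n : ℝ) ^ (c i)⌋₊ ^ 2] x)
                - ∏ i, ∫ y, f i y ∂μ : ℝ) : ℂ) = K * D N x := by
      rw [Complex.ofReal_sub, h4, Complex.ofReal_mul, Complex.ofReal_sum]
      simp only [h3, hD]
      rw [← Finset.mul_sum]
      push_cast
      ring
    rw [← h5, Complex.norm_real, Real.norm_eq_abs, sq_abs]
  simp only [hmain]
  have := (hn2.const_mul ‖K‖).pow 2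
  simpa using this

end

end Pool.Agent.JE.H31
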