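import Pool.Agent.Helper31.JE.Base
import Pool.Agent.Helper31.JE.Final
import Pool.Agent.Helper40.JE.Slow
import Pool.Agent.Helper44.JE.P0loc
import Pool.Agent.Helper65.JE.SC
import Pool.Agent.Helper66.JE.SlowAvg
import Pool.Agent.Helper87.JE.ExpSum
import Pool.Agent.Helper87.JE.Taylor

/-! Assembly of the proof of the joint ergodicity theorem. -/

open MeasureTheory Filter Topology Finset
open scoped BigOperators ComplexConjugate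

namespace Pool.Agent.JE.H31

theorem p0loc_inst (B : Finset ℝ) (hB : ∀ b ∈ B, PosNonInt b ∧ 1 < b) (t : ℝ → ℝ)
    (ht : ∀ b ∈ B, IrrOrInt (t b)) (hirr : ∃ b ∈ B, Irrational (t b)) (ε : ℝ) (hε : 0 < ε) :
    ∃ L : ℕ, 1 ≤ L ∧ ∀ᶠ N : ℕ in atTop,
      ravg N (fun n => ‖avg L (fun u => ∏ b ∈ B, e (t b * (sq b (n + u) : ℝ)))‖) ≤ ε := by
  refine H44.p0loc_of ?_ ?_ ?_ ?_ B hB t ht hirr ε hε
  · intro c hc W ε hε
    exact taylor c hc W ε hε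
  · intro I _ κ γ hκ hγ hγ1 κs τs hτ g hb hg
    exact slow_avg κ γ hκ hγ hγ1 κs τs hτ g hb hg
  · intro T hT κ hκ ψ c₀ hψ Λ hΛ hΛ'
    exact exp_fast T hT κ hκ ψ c₀ hψ Λ hΛ hΛ'
  · intro c hc g hg hg1
    exact equi c hc g hg hg1

section
variable {X : Type} [MeasurableSpace X] {μ : Measure X} [IsProbabilityMeasure μ]

theorem PP_base (A : Act X μ) (hte : ∀ m : ℕ, 1 ≤ m → Ergodic (A.S m) μ) (B B' : Finset ℝ)
    (hB : ∀ b ∈ B, 0 < b ∧ b < 1) (hB' : ∀ b ∈ B', PosNonInt b ∧ 1 < b) : PP A B B' :=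
  PP_base_of A B B' (fun f hf => slow_case A hte B hB f hf)
    (fun t ht hirr ε hε => p0loc_inst B' hB' t ht hirr ε hε) hB

theorem PP_step (A : Act X μ) (hte : ∀ m : ℕ, 1 ≤ m → Ergodic (A.S m) μ) (B B' : Finset ℝ) (c : ℝ)
    (hc : PosNonInt c) (hc1 : 1 < c) (hB : ∀ b ∈ B, PosNonInt b ∧ b < c)
    (hB' : ∀ b ∈ B', PosNonInt b ∧ c < b) (h1 : PP A B (insert c B')) :
    PP A (insert c B) B' := by
  obtain ⟨s, hs, hsc⟩ := sc B c hc hc1 hB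
  exact PP_step_of A hte B B' c (fun h => lt_irrefl _ (hB c h).2) (fun h => lt_irrefl _ (hB' c h).2)
    s hs (fun f hf hnull w hw => hsc X μ A f hf hnull w hw) h1

theorem main_all (A : Act X μ) (hte : ∀ m : ℕ, 1 ≤ m → Ergodic (A.S m) μ) (B B' : Finset ℝ)
    (hB : ∀ b ∈ B, PosNonInt b) (hB' : ∀ b ∈ B', PosNonInt b ∧ 1 < b)
    (hlt : ∀ b ∈ B, ∀ b' ∈ B', b < b') : PP A B B' :=
  main_all_of A (PP_base A hte) (PP_step A hte) _ B B' rfl hB hB' hlt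

theorem joint_ergodicity (k : ℕ) (c : Fin k → ℝ) (hc : Function.Injective c)
    (hpos : ∀ i, 0 < c i) (hnint : ∀ i, ∀ m : ℤ, c i ≠ (m : ℝ))
    (T : X ≃ᵐ X) (hT : MeasurePreserving T μ μ)
    (hte : ∀ n : ℕ, 1 ≤ n → Ergodic ((⇑T)^[n]) μ)
    (f : Fin k → X → ℝ) (hf : ∀ i, MemLp (f i) ⊤ μ) :
    Tendsto (fun N : ℕ => ∫ x, ((1 / (N : ℝ)) * ∑ n ∈ Finset.Icc 1 N,
                ∏ i, f i ((⇑T)^[⌊(n : ℝ) ^ (c i)⌋₊ ^ 2] x)
                - ∏ i, ∫ y, f i y ∂μ) ^ 2 ∂μ) atTop (𝓝 0) := by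
  refine final_of k c hc T hT ?_ f hf
  refine main_all (actOf T hT) (fun m hm => ?_) _ _ ?_ (by simp) (by simp)
  · rw [actOf_nat]
    exact hte m hm
  · intro b hb
    obtain ⟨i, -, rfl⟩ := Finset.mem_image.mp hb
    exact ⟨hpos i, hnint i⟩

end

end Pool.Agent.JE.H31
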