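import Pool.Agent.Helper31.JE.Step

/-! T14b: the base case of the induction. -/

open MeasureTheory Filter Topology Finset
open scoped BigOperators ComplexConjugate

namespace Pool.Agent.JE.H31

set_option linter.unusedSectionVars false

theorem sum_shift_le (g : ℕ → ℝ) (hg : Monotone g) (h0 : ∀ n, 0 ≤ g n) (N L : ℕ) :
    ∑ n ∈ range N, (g (n + L) - g n) ≤ L * g (N + L) := by
  have h1 : ∀ n, g (n + L) - g n = ∑ j ∈ range L, (g (n + (j + 1)) - g (n + j)) := by
    intro n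
    rw [Finset.sum_range_sub (fun j => g (n + j))]
    simp
  simp only [h1]
  rw [Finset.sum_comm]
  have h2 : ∀ j ∈ range L, ∑ n ∈ range N, (g (n + (j + 1)) - g (n + j)) ≤ g (N + L) := by
    intro j hj
    have h3 : ∑ n ∈ range N, (g (n + (j + 1)) - g (n + j)) = g (N + j) - g (0 + j) := by
      rw [← Finset.sum_range_sub (fun n => g (n + j))]
      refine Finset.sum_congr rfl fun n _ => ?_
      congr 2
      ring
    rw [h3]
    have h4 := hg (show N + j ≤ N + L by have := mem_range.mp hj; omega)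
    have h5 := h0 (0 + j)
    linarith
  refine (Finset.sum_le_sum h2).trans ?_
  rw [sum_const, card_range, nsmul_eq_mul]

/-- the proportion of the places where `⌊n ^ b⌋` changes within the next `L` steps -/
theorem slow_change (b : ℝ) (hb0 : 0 < b) (hb1 : b < 1) (L : ℕ) :
    Tendsto (fun N => ravg N (fun n => ((⌊((n + L : ℕ) : ℝ) ^ b⌋₊ : ℕ) : ℝ) -
      ((⌊(n : ℝ) ^ b⌋₊ : ℕ) : ℝ))) atTop (𝓝 0) := by
  set g : ℕ → ℝ := fun n => ((⌊(n : ℝ) ^ b⌋₊ : ℕ) : ℝ) with hg
  have hmono : Monotone g := by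
    intro m n hmn
    have h1 : (m : ℝ) ^ b ≤ (n : ℝ) ^ b :=
      Real.rpow_le_rpow (Nat.cast_nonneg _) (by exact_mod_cast hmn) hb0.le
    have h2 := Nat.floor_mono h1
    simp only [hg]
    exact_mod_cast h2
  have h0 : ∀ n, 0 ≤ g n := fun n => Nat.cast_nonneg _
  have hlim : Tendsto (fun N : ℕ => (L : ℝ) * 2 * ((N : ℝ) ^ (-(1 - b)))) atTop (𝓝 0) := by
    have h1 : Tendsto (fun N : ℕ => ((N : ℝ) ^ (-(1 - b)))) atTop (𝓝 0) :=
      (tendsto_rpow_neg_atTop (by linarith : 0 < 1 - b)).comp tendsto_natCast_atTop_atTop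
    simpa using h1.const_mul ((L : ℝ) * 2)
  refine squeeze_zero' (Eventually.of_forall fun N => ?_) ?_ hlim
  · refine ravg_nonneg N fun n _ => ?_
    have := hmono (show n ≤ n + L by omega)
    simp only [hg] at this
    linarith
  · filter_upwards [eventually_ge_atTop (max L 1)] with N hN
    have hNL : L ≤ N := le_trans (le_max_left _ _) hN
    have hN1 : 1 ≤ N := le_trans (le_max_right _ _) hN
    have hNr : (0 : ℝ) < N := by exact_mod_cast hN1
    have h1 := sum_shift_le g hmono h0 N L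
    have h2 : g (N + L) ≤ 2 * (N : ℝ) ^ b := by
      have h3 : g (N + L) ≤ ((N + L : ℕ) : ℝ) ^ b := by
        rw [hg]
        exact Nat.floor_le (by positivity)
      have h4 : ((N + L : ℕ) : ℝ) ^ b ≤ (2 * (N : ℝ)) ^ b := by
        refine Real.rpow_le_rpow (by positivity) ?_ hb0.le
        have : (L : ℝ) ≤ N := by exact_mod_cast hNL
        push_cast
        linarith
      have h5 : (2 * (N : ℝ)) ^ b ≤ 2 * (N : ℝ) ^ b := by
        rw [Real.mul_rpow (by norm_num) hNr.le]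
        refine mul_le_mul_of_nonneg_right ?_ (by positivity)
        calc (2 : ℝ) ^ b ≤ (2 : ℝ) ^ (1 : ℝ) :=
              Real.rpow_le_rpow_of_exponent_le (by norm_num) hb1.le
          _ = 2 := by norm_num
      linarith
    unfold ravg
    rw [div_le_iff₀ hNr]
    have h6 : (N : ℝ) ^ (-(1 - b)) * N = (N : ℝ) ^ b := by
      rw [← Real.rpow_add_one hNr.ne']
      congr 1
      ring
    calc ∑ n ∈ range N, (((⌊((n + L : ℕ) : ℝ) ^ b⌋₊ : ℕ) : ℝ) - ((⌊(n : ℝ) ^ b⌋₊ : ℕ) : ℝ))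
        = ∑ n ∈ range N, (g (n + L) - g n) := rfl
      _ ≤ L * g (N + L) := h1
      _ ≤ L * (2 * (N : ℝ) ^ b) := by gcongr
      _ = (L : ℝ) * 2 * ((N : ℝ) ^ (-(1 - b))) * N := by rw [← h6]; ring

theorem floor_eq_of_le (b : ℝ) (hb0 : 0 < b) (n L u : ℕ) (hu : u ≤ L)
    (h : ⌊((n + L : ℕ) : ℝ) ^ b⌋₊ = ⌊(n : ℝ) ^ b⌋₊) :
    ⌊((n + u : ℕ) : ℝ) ^ b⌋₊ = ⌊(n : ℝ) ^ b⌋₊ := by
  have hm : ∀ i j : ℕ, i ≤ j → ⌊(i : ℝ) ^ b⌋₊ ≤ ⌊(j : ℝ) ^ b⌋₊ := fun i j hij =>
    Nat.floor_mono (Real.rpow_le_rpow (Nat.cast_nonneg _) (by exact_mod_cast hij) hb0.le)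
  have h1 := hm n (n + u) (by omega)
  have h2 := hm (n + u) (n + L) (by omega)
  omega

section
variable {X : Type} [MeasurableSpace X] {μ : Measure X} [IsProbabilityMeasure μ]

theorem PP_base_of (A : Act X μ) (B B' : Finset ℝ)
    (hslow : ∀ f : ℝ → X → ℂ, (∀ b, Bdd (f b)) →
      Tendsto (fun N => n2 μ (fun x => avg N (fun n => ∏ b ∈ B, f b (A.S (sq b n) x)) -
      ∏ b ∈ B, ∫ y, f b y ∂μ)) atTop (𝓝 0))
    (hp0 : ∀ t : ℝ → ℝ, (∀ b ∈ B', IrrOrInt (t b)) → (∃ b ∈ B', Irrational (t b)) →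
      ∀ ε : ℝ, 0 < ε → ∃ L : ℕ, 1 ≤ L ∧ ∀ᶠ N : ℕ in atTop,
      ravg N (fun n => ‖avg L (fun u => ∏ b ∈ B', e (t b * (sq b (n + u) : ℝ)))‖) ≤ ε)
    (hB : ∀ b ∈ B, 0 < b ∧ b < 1) : PP A B B' := by
  classical
  intro f hf t ht
  by_cases hi : ∀ b ∈ B', ∃ m : ℤ, t b = m
  · simp only [if_pos hi, one_mul]
    refine (hslow f hf).congr fun N => ?_
    congr 1
    funext x
    congr 2
    funext n
    rw [show (∏ b ∈ B', e (t b * (sq b n : ℝ))) = 1 from wt_int B' t hi n, one_mul]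
  · simp only [if_neg hi, zero_mul, sub_zero]
    have hirr : ∃ b ∈ B', Irrational (t b) := by
      push Not at hi
      obtain ⟨b, hb, h⟩ := hi
      refine ⟨b, hb, ?_⟩
      rcases ht b hb with h1 | ⟨m, hm⟩
      · exact h1
      · exact absurd hm (h m)
    rw [Metric.tendsto_atTop]
    intro ε hε
    obtain ⟨L, hL1, hL⟩ := hp0 t ht hirr (ε / 4) (by positivity)
    have hLr : (0 : ℝ) < L := by exact_mod_cast hL1
    -- the bad places
    set bad : ℕ → ℝ := fun n => ∑ b ∈ B, (((⌊((n + L : ℕ) : ℝ) ^ b⌋₊ : ℕ) : ℝ) -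
      ((⌊(n : ℝ) ^ b⌋₊ : ℕ) : ℝ)) with hbad
    have hbadlim : Tendsto (fun N => ravg N bad) atTop (𝓝 0) := by
      have h1 : ∀ N, ravg N bad = ∑ b ∈ B, ravg N (fun n =>
          (((⌊((n + L : ℕ) : ℝ) ^ b⌋₊ : ℕ) : ℝ) - ((⌊(n : ℝ) ^ b⌋₊ : ℕ) : ℝ))) := by
        intro N
        unfold ravg
        rw [← Finset.sum_div, Finset.sum_comm]
      simp only [h1]
      have := tendsto_finsetSum B fun b hb => slow_change b (hB b hb).1 (hB b hb).2 L
      simpa using this
    have hterm : ∀ b ∈ B, ∀ n : ℕ, (0 : ℝ) ≤ ((⌊((n + L : ℕ) : ℝ) ^ b⌋₊ : ℕ) : ℝ) -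
        ((⌊(n : ℝ) ^ b⌋₊ : ℕ) : ℝ) := by
      intro b hb n
      have : ⌊(n : ℝ) ^ b⌋₊ ≤ ⌊((n + L : ℕ) : ℝ) ^ b⌋₊ :=
        Nat.floor_mono (Real.rpow_le_rpow (Nat.cast_nonneg _)
          (by push_cast; linarith) (hB b hb).1.le)
      have h2 : ((⌊(n : ℝ) ^ b⌋₊ : ℕ) : ℝ) ≤ ((⌊((n + L : ℕ) : ℝ) ^ b⌋₊ : ℕ) : ℝ) := by
        exact_mod_cast this
      linarith
    have hbad0 : ∀ n, 0 ≤ bad n := fun n => Finset.sum_nonneg fun b hb => hterm b hb n
    have hgood : ∀ n, bad n < 1 → ∀ u ≤ L, ∀ x, pr A B f (n + u) x = pr A B f n x := by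
      intro n hn u hu x
      unfold pr
      refine Finset.prod_congr rfl fun b hb => ?_
      have h1 : ((⌊((n + L : ℕ) : ℝ) ^ b⌋₊ : ℕ) : ℝ) - ((⌊(n : ℝ) ^ b⌋₊ : ℕ) : ℝ) < 1 :=
        (Finset.single_le_sum (fun b hb => hterm b hb n) hb).trans_lt hn
      have h2 := hterm b hb n
      have h3 : ⌊((n + L : ℕ) : ℝ) ^ b⌋₊ = ⌊(n : ℝ) ^ b⌋₊ := by
        have h4 : ((⌊((n + L : ℕ) : ℝ) ^ b⌋₊ : ℕ) : ℝ) < ((⌊(n : ℝ) ^ b⌋₊ + 1 : ℕ) : ℝ) := by
          rw [Nat.cast_add_one]
          linarith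
        have h5 : ((⌊(n : ℝ) ^ b⌋₊ : ℕ) : ℝ) ≤ ((⌊((n + L : ℕ) : ℝ) ^ b⌋₊ : ℕ) : ℝ) := by
          linarith
        have h6 : ⌊((n + L : ℕ) : ℝ) ^ b⌋₊ < ⌊(n : ℝ) ^ b⌋₊ + 1 := by exact_mod_cast h4
        have h7 : ⌊(n : ℝ) ^ b⌋₊ ≤ ⌊((n + L : ℕ) : ℝ) ^ b⌋₊ := by exact_mod_cast h5
        omega
      have h8 := floor_eq_of_le b (hB b hb).1 n L u hu h3
      unfold sq
      rw [h8]
    -- the pointwise bound
    have hpt : ∀ N : ℕ, 1 ≤ N → ∀ x, ‖avg N (fun n => wt B' t n * pr A B f n x)‖ ≤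
        2 * L / N + (ravg N (fun n => ‖avg L (fun u => wt B' t (n + u))‖) + ravg N bad) := by
      intro N hN x
      have hNr : (0 : ℝ) < N := by exact_mod_cast hN
      set a : ℕ → ℂ := fun n => wt B' t n * pr A B f n x with ha
      have hab : ∀ n, ‖a n‖ ≤ 1 := by
        intro n
        rw [ha]
        simp only
        rw [norm_mul, norm_wt, one_mul]
        exact (bdd_pr A B f hf n).le x
      have h1 : ‖avg N (fun n => avg L (fun u => a (n + u))) - avg N a‖ ≤ 2 * L / N := by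
        rw [avg_comm]
        have h2 : avg L (fun u => avg N (fun n => a (n + u))) - avg N a =
            avg L (fun u => avg N (fun n => a (n + u)) - avg N a) := by
          rw [avg_sub, avg_const L hL1]
        rw [h2]
        refine (norm_avg_le _ _).trans (ravg_le L (by positivity) fun u hu => ?_)
        refine (avg_shift N u a 1 hab).trans ?_
        gcongr
        have : (u : ℝ) ≤ L := by exact_mod_cast hu.le
        linarith
      have h3 : ‖avg N (fun n => avg L (fun u => a (n + u)))‖ ≤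
          ravg N (fun n => ‖avg L (fun u => wt B' t (n + u))‖) + ravg N bad := by
        rw [← ravg_add]
        refine (norm_avg_le _ _).trans (ravg_mono N fun n _ => ?_)
        by_cases hn : bad n < 1
        · have h4 : avg L (fun u => a (n + u)) =
              avg L (fun u => wt B' t (n + u)) * pr A B f n x := by
            rw [← avg_mul_right]
            unfold avg
            congr 1
            refine Finset.sum_congr rfl fun u hu => ?_
            rw [ha]
            simp only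
            rw [hgood n hn u (mem_range.mp hu).le x]
          rw [h4, norm_mul]
          have h5 := mul_le_of_le_one_right
            (norm_nonneg (avg L (fun u => wt B' t (n + u)))) ((bdd_pr A B f hf n).le x)
          linarith [hbad0 n]
        · push Not at hn
          have h5 := norm_avg_le_one L (a := fun u => a (n + u)) fun u => hab (n + u)
          have h6 := norm_nonneg (avg L (fun u => wt B' t (n + u)))
          linarith
      have h7 : avg N a = avg N (fun n => avg L (fun u => a (n + u))) -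
          (avg N (fun n => avg L (fun u => a (n + u))) - avg N a) := by ring
      calc ‖avg N a‖ ≤ ‖avg N (fun n => avg L (fun u => a (n + u)))‖ +
            ‖avg N (fun n => avg L (fun u => a (n + u))) - avg N a‖ := by
              conv_lhs => rw [h7]
              exact norm_sub_le _ _
        _ ≤ _ := by linarith
    have hL' : ∀ᶠ N : ℕ in atTop, ravg N (fun n => ‖avg L (fun u => wt B' t (n + u))‖) ≤ ε / 4 :=
      hL
    have hinv : ∀ᶠ N : ℕ in atTop, 2 * (L : ℝ) / N ≤ ε / 4 := by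
      have h1 : Tendsto (fun N : ℕ => 2 * (L : ℝ) / N) atTop (𝓝 0) :=
        tendsto_const_div_atTop_nhds_zero_nat _
      filter_upwards [h1.eventually (gt_mem_nhds (by positivity : (0 : ℝ) < ε / 4))] with N hN
      exact hN.le
    have hbad' : ∀ᶠ N : ℕ in atTop, ravg N bad ≤ ε / 4 := by
      filter_upwards [hbadlim.eventually (gt_mem_nhds (by positivity : (0 : ℝ) < ε / 4))]
        with N hN
      exact hN.le
    obtain ⟨N0, hN0⟩ := Filter.eventually_atTop.mp
      (hL'.and (hinv.and (hbad'.and (eventually_ge_atTop 1))))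
    refine ⟨N0, fun N hN => ?_⟩
    obtain ⟨q1, q2, q3, q4⟩ := hN0 N hN
    rw [Real.dist_0_eq_abs, abs_of_nonneg (n2_nonneg _)]
    have hle : n2 μ (fun x => avg N (fun n => (∏ b ∈ B', e (t b * (sq b n : ℝ))) *
        ∏ b ∈ B, f b (A.S (sq b n) x))) ≤ 3 * (ε / 4) := by
      have h1 := n2_mono (μ := μ) (F := fun x => avg N (fun n =>
        (∏ b ∈ B', e (t b * (sq b n : ℝ))) * ∏ b ∈ B, f b (A.S (sq b n) x)))
        (G := fun _ => ((3 * (ε / 4) : ℝ) : ℂ)) (BM.const _) (Eventually.of_forall fun x => by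
          have h2 := hpt N q4 x
          rw [Complex.norm_real, Real.norm_of_nonneg (by positivity)]
          refine le_trans (le_of_eq ?_) (h2.trans (by linarith))
          rfl)
      rw [n2_const, Complex.norm_real, Real.norm_of_nonneg (by positivity)] at h1
      exact h1
    linarith

end

end Pool.Agent.JE.H31
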