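import Pool.Agent.Helper31.JE.WeakLim

/-! Elementary facts on `e` and on eigenfunctions. -/

open MeasureTheory Filter Topology Finset
open scoped BigOperators ComplexConjugate

namespace Pool.Agent.JE.H31

theorem e_zero : e 0 = 1 := by simp [e]

theorem e_add (x y : ℝ) : e (x + y) = e x * e y := by
  unfold e
  rw [← Complex.exp_add]
  congr 1
  push_cast
  ring

theorem norm_e (x : ℝ) : ‖e x‖ = 1 := by
  unfold e
  have : (2 * Real.pi * x * Complex.I : ℂ) = ((2 * Real.pi * x : ℝ) : ℂ) * Complex.I := by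
    push_cast; ring
  rw [this, Complex.norm_exp_ofReal_mul_I]

theorem e_ne_zero (x : ℝ) : e x ≠ 0 := by
  unfold e; exact Complex.exp_ne_zero _

theorem e_int (m : ℤ) : e (m : ℝ) = 1 := by
  unfold e
  rw [Complex.exp_eq_one_iff]
  exact ⟨m, by push_cast; ring⟩

theorem e_eq_one_iff (x : ℝ) : e x = 1 ↔ ∃ m : ℤ, x = m := by
  constructor
  · intro h
    unfold e at h
    rw [Complex.exp_eq_one_iff] at h
    obtain ⟨m, hm⟩ := h
    refine ⟨m, ?_⟩
    have h2 : (2 * Real.pi * Complex.I : ℂ) ≠ 0 := Complex.two_pi_I_ne_zero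
    have h3 : (x : ℂ) = (m : ℂ) := by
      apply mul_right_cancel₀ h2
      linear_combination hm
    exact_mod_cast h3
  · rintro ⟨m, rfl⟩
    exact e_int m

theorem e_neg (x : ℝ) : e (-x) = conj (e x) := by
  unfold e
  rw [← Complex.exp_conj]
  congr 1
  have h2 : conj (2 : ℂ) = 2 := map_ofNat _ 2
  simp [h2]

theorem e_neg_mul (x : ℝ) : e (-x) * e x = 1 := by
  rw [← e_add]; simp [e_zero]

section
variable {X : Type} [MeasurableSpace X] {μ : Measure X}

theorem eig_bdd {A : Act X μ} {χ : X → ℂ} {α : ℝ} (h : IsEig A χ α) : Bdd χ :=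
  ⟨h.1, fun x => (h.2.1 x).le⟩

theorem eig_iter {A : Act X μ} {χ : X → ℂ} {α : ℝ} (h : IsEig A χ α) (k : ℕ) :
    ∀ᵐ x ∂μ, χ (A.S (k : ℤ) x) = e (α * k) * χ x := by
  induction k with
  | zero =>
    refine Eventually.of_forall fun x => ?_
    simp [A.zero, e_zero]
  | succ k ih =>
    have h1 := (A.mp 1).quasiMeasurePreserving.ae ih
    filter_upwards [h1, h.2.2] with x hx hx'
    have : A.S ((k + 1 : ℕ) : ℤ) x = A.S (k : ℤ) (A.S 1 x) := by
      push_cast
      exact A.add _ _ _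
    rw [this, hx, hx', ← mul_assoc, ← e_add]
    congr 2
    push_cast
    ring

theorem eig_integral {A : Act X μ} {χ : X → ℂ} {α : ℝ} (h : IsEig A χ α)
    (hα : e α ≠ 1) : ∫ x, χ x ∂μ = 0 := by
  have h1 := integral_comp A h.1 1
  have h2 : ∫ x, χ (A.S 1 x) ∂μ = e α * ∫ x, χ x ∂μ := by
    rw [← integral_const_mul]
    exact integral_congr_ae h.2.2
  rw [h2] at h1
  have h3 : (e α - 1) * ∫ x, χ x ∂μ = 0 := by
    rw [sub_mul, h1]; ring
  rcases mul_eq_zero.mp h3 with h4 | h4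
  · exact absurd (sub_eq_zero.mp h4) hα
  · exact h4

theorem eig_const [IsProbabilityMeasure μ] {A : Act X μ} {χ : X → ℂ} {α : ℝ}
    (h : IsEig A χ α) (herg : Ergodic (A.S 1) μ) (hα : e α = 1) :
    ∃ c, ∀ᵐ x ∂μ, χ x = c := by
  have := herg.ae_eq_const_of_ae_eq_comp_ae (g := χ) h.1.aestronglyMeasurable (by
    filter_upwards [h.2.2] with x hx
    simp [hx, hα])
  obtain ⟨c, hc⟩ := this
  exact ⟨c, hc⟩

theorem eig_irrational [IsProbabilityMeasure μ] {A : Act X μ} {χ : X → ℂ} {α : ℝ}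
    (h : IsEig A χ α) (hte : ∀ m : ℕ, 1 ≤ m → Ergodic (A.S m) μ) (hα : e α ≠ 1) :
    Irrational α := by
  rintro ⟨r, hr⟩
  have hd : 1 ≤ r.den := r.den_pos
  have h1 := eig_iter h r.den
  have h2 : e (α * r.den) = 1 := by
    rw [e_eq_one_iff]
    refine ⟨r.num, ?_⟩
    rw [← hr]
    have : (r : ℝ) * (r.den : ℝ) = ((r * r.den : ℚ) : ℝ) := by push_cast; ring
    rw [this, Rat.mul_den_eq_num]
    simp
  rw [h2] at h1
  obtain ⟨c, hc⟩ := (hte r.den hd).ae_eq_const_of_ae_eq_comp_ae (g := χ)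
    h.1.aestronglyMeasurable (by
      filter_upwards [h1] with x hx
      simp [hx])
  have h3 := (A.mp 1).quasiMeasurePreserving.ae hc
  obtain ⟨x, hx1, hx2, hx3⟩ := (h3.and (hc.and h.2.2)).exists
  have h4 : χ (A.S 1 x) = c := hx1
  have h5 : χ x = c := hx2
  rw [h4, h5] at hx3
  have h6 : c ≠ 0 := by
    intro h0
    have := h.2.1 x
    rw [h5, h0, norm_zero] at this
    exact zero_ne_one this
  apply hα
  have h7 : (e α - 1) * c = 0 := by rw [sub_mul, ← hx3]; ring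
  rcases mul_eq_zero.mp h7 with h8 | h8
  · exact sub_eq_zero.mp h8
  · exact absurd h8 h6

end

end Pool.Agent.JE.H31
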