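import Pool.Agent.Helper31.JE.Step

/-! T14c: the induction. -/

open MeasureTheory Filter Topology Finset
open scoped BigOperators ComplexConjugate

namespace Pool.Agent.JE.H31

/-- the induction on the number of exponents larger than one -/
theorem main_all_of {X : Type} [MeasurableSpace X] {μ : Measure X} [IsProbabilityMeasure μ]
    (A : Act X μ)
    (hbase : ∀ (B B' : Finset ℝ), (∀ b ∈ B, 0 < b ∧ b < 1) → (∀ b ∈ B', PosNonInt b ∧ 1 < b) →
      PP A B B')
    (hstep : ∀ (B B' : Finset ℝ) (c : ℝ), PosNonInt c → 1 < c → (∀ b ∈ B, PosNonInt b ∧ b < c) →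
      (∀ b ∈ B', PosNonInt b ∧ c < b) → PP A B (insert c B') → PP A (insert c B) B')
    (m : ℕ) : ∀ (B B' : Finset ℝ), (B.filter (fun b => 1 < b)).card = m →
      (∀ b ∈ B, PosNonInt b) → (∀ b ∈ B', PosNonInt b ∧ 1 < b) →
      (∀ b ∈ B, ∀ b' ∈ B', b < b') → PP A B B' := by
  induction m with
  | zero =>
    intro B B' hm hB hB' hlt
    refine hbase B B' (fun b hb => ⟨(hB b hb).1, ?_⟩) hB'
    rw [Finset.card_eq_zero, Finset.filter_eq_empty_iff] at hm
    have h1 := hm hb
    push Not at h1
    rcases lt_or_eq_of_le h1 with h | h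
    · exact h
    · exact absurd h (by simpa using (hB b hb).2 1)
  | succ m ih =>
    intro B B' hm hB hB' hlt
    have hne : (B.filter (fun b => 1 < b)).Nonempty := by
      rw [← Finset.card_pos, hm]; omega
    set c := (B.filter (fun b => 1 < b)).max' hne with hc
    have hcm : c ∈ B.filter (fun b => 1 < b) := Finset.max'_mem _ _
    rw [Finset.mem_filter] at hcm
    obtain ⟨hcB, hc1⟩ := hcm
    have hmax : ∀ b ∈ B, b ≤ c := by
      intro b hb
      by_cases h1 : 1 < b
      · exact Finset.le_max' _ _ (Finset.mem_filter.mpr ⟨hb, h1⟩)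
      · push Not at h1
        linarith
    have h2 : ∀ b ∈ B.erase c, PosNonInt b ∧ b < c := fun b hb =>
      ⟨hB b (Finset.mem_of_mem_erase hb),
        lt_of_le_of_ne (hmax b (Finset.mem_of_mem_erase hb)) (Finset.ne_of_mem_erase hb)⟩
    have h3 : ∀ b ∈ B', PosNonInt b ∧ c < b := fun b hb => ⟨(hB' b hb).1, hlt c hcB b hb⟩
    have h4 : PP A (B.erase c) (insert c B') := by
      refine ih _ _ ?_ (fun b hb => (h2 b hb).1) ?_ ?_
      · have : (B.erase c).filter (fun b => 1 < b) = (B.filter (fun b => 1 < b)).erase c := by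
          rw [Finset.filter_erase]
        rw [this, Finset.card_erase_of_mem (Finset.mem_filter.mpr ⟨hcB, hc1⟩), hm]
        rfl
      · intro b hb
        rcases Finset.mem_insert.mp hb with rfl | hb
        · exact ⟨hB _ hcB, hc1⟩
        · exact hB' b hb
      · intro b hb b' hb'
        rcases Finset.mem_insert.mp hb' with rfl | hb'
        · exact (h2 b hb).2
        · exact (h2 b hb).2.trans (h3 b' hb').2
    have h5 := hstep (B.erase c) B' c (hB c hcB) hc1 h2 h3 h4
    rwa [Finset.insert_erase hcB] at h5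

end Pool.Agent.JE.H31
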