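import Pool.Agent.Helper31.JE.Eig0

/-! Sums of products of functions composed with the iterates. -/

open MeasureTheory Filter Topology Finset
open scoped BigOperators ComplexConjugate

namespace Pool.Agent.JE.H31

section
variable {X : Type} [MeasurableSpace X] {μ : Measure X}

/-- `∏ f_b (S^{sq b n} x)` -/
noncomputable def pr (A : Act X μ) (B : Finset ℝ) (f : ℝ → X → ℂ) (n : ℕ) (x : X) : ℂ :=
  ∏ b ∈ B, f b (A.S (sq b n) x)

/-- the weight -/
noncomputable def wt (B' : Finset ℝ) (t : ℝ → ℝ) (n : ℕ) : ℂ := ∏ b ∈ B', e (t b * (sq b n : ℝ))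

theorem norm_wt (B' : Finset ℝ) (t : ℝ → ℝ) (n : ℕ) : ‖wt B' t n‖ = 1 := by
  unfold wt
  rw [norm_prod]
  exact Finset.prod_eq_one fun b _ => norm_e _

theorem bdd_pr (A : Act X μ) (B : Finset ℝ) (f : ℝ → X → ℂ) (hf : ∀ b, Bdd (f b)) (n : ℕ) :
    Bdd (pr A B f n) :=
  Bdd.prod B (fun b x => f b (A.S (sq b n) x)) fun b _ => (hf b).comp A _

/-- Finite sums of products. -/
inductive Nice (A : Act X μ) (B : Finset ℝ) (c : ℝ) : (ℕ → ℕ → X → ℂ) → Prop
  | base (g : ℕ → X → ℂ) (f : ℝ → X → ℂ) (hg : ∀ N, Bdd (g N)) (hf : ∀ b, Bdd (f b)) :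
      Nice A B c (fun N n y => g N (A.S (-sq c n) y) * ∏ b ∈ B, f b (A.S (sq b n - sq c n) y))
  | smul (a : ℂ) (G : ℕ → ℕ → X → ℂ) (h : Nice A B c G) : Nice A B c (fun N n y => a * G N n y)
  | add (G G' : ℕ → ℕ → X → ℂ) (h : Nice A B c G) (h' : Nice A B c G') :
      Nice A B c (fun N n y => G N n y + G' N n y)

variable {A : Act X μ} {B : Finset ℝ} {c : ℝ}

theorem Nice.congr {G G' : ℕ → ℕ → X → ℂ} (h : Nice A B c G) (e : ∀ N n y, G' N n y = G N n y) :
    Nice A B c G' := by
  have : G' = G := by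
    funext N n y
    exact e N n y
  rw [this]
  exact h

theorem Nice.mul {G G' : ℕ → ℕ → X → ℂ} (h : Nice A B c G) (h' : Nice A B c G') :
    Nice A B c (fun N n y => G N n y * G' N n y) := by
  induction h with
  | base g f hg hf =>
    induction h' with
    | base g' f' hg' hf' =>
      refine (Nice.base (fun N y => g N y * g' N y) (fun b y => f b y * f' b y)
        (fun N => (hg N).mul (hg' N)) (fun b => (hf b).mul (hf' b))).congr fun N n y => ?_
      rw [prod_mul_distrib]
      ring
    | smul a G h ih =>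
      refine (Nice.smul a _ ih).congr fun N n y => ?_
      ring
    | add G G' h h' ih ih' =>
      refine (Nice.add _ _ ih ih').congr fun N n y => ?_
      ring
  | smul a G h ih =>
    refine (Nice.smul a _ ih).congr fun N n y => ?_
    ring
  | add G G' h h' ih ih' =>
    refine (Nice.add _ _ ih ih').congr fun N n y => ?_
    ring

theorem Nice.conj {G : ℕ → ℕ → X → ℂ} (h : Nice A B c G) :
    Nice A B c (fun N n y => conj (G N n y)) := by
  induction h with
  | base g f hg hf =>
    refine (Nice.base (fun N y => (starRingEnd ℂ) (g N y)) (fun b y => (starRingEnd ℂ) (f b y))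
      (fun N => (hg N).conj) (fun b => (hf b).conj)).congr fun N n y => ?_
    rw [map_mul, map_prod]
  | smul a G h ih =>
    refine (Nice.smul ((starRingEnd ℂ) a) _ ih).congr fun N n y => ?_
    rw [map_mul]
  | add G G' h h' ih ih' =>
    refine (Nice.add _ _ ih ih').congr fun N n y => ?_
    rw [map_add]

theorem act_comm (A : Act X μ) (a b : ℤ) (x : X) : A.S a (A.S b x) = A.S b (A.S a x) := by
  rw [← A.add, ← A.add, add_comm]

theorem Nice.shift {G : ℕ → ℕ → X → ℂ} (h : Nice A B c G) (k : ℤ) :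
    Nice A B c (fun N n y => G N n (A.S k y)) := by
  induction h with
  | base g f hg hf =>
    refine (Nice.base (fun N y => g N (A.S k y)) (fun b y => f b (A.S k y))
      (fun N => (hg N).comp A k) (fun b => (hf b).comp A k)).congr fun N n y => ?_
    beta_reduce
    rw [act_comm A _ k]
    congr 1
    refine Finset.prod_congr rfl fun b _ => ?_
    rw [act_comm A _ k]
  | smul a G h ih => exact (Nice.smul a _ ih).congr fun N n y => rfl
  | add G G' h h' ih ih' => exact (Nice.add _ _ ih ih').congr fun N n y => rfl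

theorem Nice.dl {G : ℕ → ℕ → X → ℂ} (h : Nice A B c G) (k : ℤ) :
    Nice A B c (fun N n => Dl A k (G N n)) :=
  ((h.shift k).mul h.conj).congr fun _ _ _ => rfl

theorem Nice.cub {G : ℕ → ℕ → X → ℂ} (h : Nice A B c G) (l : List ℤ) :
    Nice A B c (fun N n => cub A l (G N n)) := by
  induction l generalizing G with
  | nil => exact h
  | cons k l ih =>
    have := ih (h.dl k)
    exact this

theorem Nice.const (a : ℂ) : Nice A B c (fun _ _ _ => a) := by
  refine (Nice.smul a _ (Nice.base (fun _ _ => (1 : ℂ)) (fun _ _ => (1 : ℂ))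
    (fun _ => Bdd.const (by simp)) (fun _ => Bdd.const (by simp)))).congr fun N n y => ?_
  simp

theorem Nice.bm {G : ℕ → ℕ → X → ℂ} (h : Nice A B c G) : ∀ N n, BM (G N n) := by
  induction h with
  | base g f hg hf =>
    intro N n
    exact (((hg N).comp A (-sq c n)).mul
      (Bdd.prod B (fun b x => f b (A.S (sq b n - sq c n) x)) fun b _ => (hf b).comp A _)).bm
  | smul a G h ih => exact fun N n => (BM.const a).mul (ih N n)
  | add G G' h h' ih ih' => exact fun N n => (ih N n).add (ih' N n)

/-- `P(B, {c})` in terms of twisted averages gives the vanishing needed for degree lowering. -/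
theorem Nice.lim [IsProbabilityMeasure μ] {G : ℕ → ℕ → X → ℂ} (h : Nice A B c G) (χ : X → ℂ)
    (α : ℝ) (hχ : IsEig A χ α)
    (hP : ∀ f : ℝ → X → ℂ, (∀ b, Bdd (f b)) → Tendsto (fun N => n2 μ (fun x => avg N (fun n =>
      e (α * (sq c n : ℝ)) * pr A B f n x))) atTop (𝓝 0)) :
    Tendsto (fun N => avg N (fun n => ∫ x, G N n x * χ x ∂μ)) atTop (𝓝 0) := by
  induction h with
  | base g f hg hf =>
    have hχb := eig_bdd hχ
    have h1 : ∀ N n, ∫ x, (g N (A.S (-sq c n) x) * ∏ b ∈ B, f b (A.S (sq b n - sq c n) x)) * χ x ∂μ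
        = ∫ x, (g N x * χ x) * (e (α * (sq c n : ℝ)) * pr A B f n x) ∂μ := by
      intro N n
      have hm : Measurable (fun x => (g N (A.S (-sq c n) x) *
          ∏ b ∈ B, f b (A.S (sq b n - sq c n) x)) * χ x) :=
        ((((hg N).comp A (-sq c n)).mul
          (Bdd.prod B (fun b x => f b (A.S (sq b n - sq c n) x)) fun b _ =>
            (hf b).comp A _)).mul hχb).meas
      rw [← integral_comp A hm (sq c n)]
      refine integral_congr_ae ?_
      have h2 := eig_iter hχ (⌊(n : ℝ) ^ c⌋₊ ^ 2)
      filter_upwards [h2] with x hx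
      have h3 : ((⌊(n : ℝ) ^ c⌋₊ ^ 2 : ℕ) : ℤ) = sq c n := by
        unfold sq; push_cast; rfl
      have h4 : ((⌊(n : ℝ) ^ c⌋₊ ^ 2 : ℕ) : ℝ) = (sq c n : ℝ) := by
        unfold sq; push_cast; rfl
      rw [h3, h4] at hx
      rw [hx, ← A.add, neg_add_cancel, A.zero]
      have h5 : ∀ b, A.S (sq b n - sq c n) (A.S (sq c n) x) = A.S (sq b n) x := by
        intro b
        rw [← A.add, sub_add_cancel]
      simp only [h5, pr]
      ring
    simp only [h1]
    have hb : ∀ N n, BM (fun x => (g N x * χ x) * (e (α * (sq c n : ℝ)) * pr A B f n x)) :=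
      fun N n => (((hg N).mul hχb).mul ((bdd_pr A B f hf n).smul (norm_e _).le)).bm
    have h6 : ∀ N, avg N (fun n => ∫ x, (g N x * χ x) * (e (α * (sq c n : ℝ)) * pr A B f n x) ∂μ) =
        ∫ x, (g N x * χ x) * avg N (fun n => e (α * (sq c n : ℝ)) * pr A B f n x) ∂μ := by
      intro N
      rw [← integral_avg N _ (hb N)]
      simp only [avg_mul]
    simp only [h6]
    rw [tendsto_zero_iff_norm_tendsto_zero]
    refine squeeze_zero (fun _ => norm_nonneg _) (fun N => ?_) (hP f hf)
    have hbm : BM (fun x => avg N (fun n => e (α * (sq c n : ℝ)) * pr A B f n x)) :=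
      BM.avg N _ fun n => ((bdd_pr A B f hf n).smul (norm_e _).le).bm
    refine (norm_integral_le_n2 (((hg N).mul hχb).bm.mul hbm)).trans ?_
    exact n2_mul_le ((hg N).mul hχb).le hbm
  | smul a G h ih =>
    have h1 : ∀ N, avg N (fun n => ∫ x, a * G N n x * χ x ∂μ) =
        a * avg N (fun n => ∫ x, G N n x * χ x ∂μ) := by
      intro N
      rw [← avg_mul]
      congr 1
      funext n
      rw [← integral_const_mul]
      congr 1
      funext x
      ring
    simp only [h1]
    simpa using ih.const_mul a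
  | add G G' h h' ih ih' =>
    have h1 : ∀ N, avg N (fun n => ∫ x, (G N n x + G' N n x) * χ x ∂μ) =
        avg N (fun n => ∫ x, G N n x * χ x ∂μ) + avg N (fun n => ∫ x, G' N n x * χ x ∂μ) := by
      intro N
      rw [← avg_add]
      congr 1
      funext n
      rw [← integral_add (((h.bm N n).mul (eig_bdd hχ).bm).integrable)
        (((h'.bm N n).mul (eig_bdd hχ).bm).integrable)]
      congr 1
      funext x
      ring
    simp only [h1]
    simpa using ih.add ih'

end

end Pool.Agent.JE.H31
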