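import Pool.Agent.Helper31.JE.Nice
import Pool.Agent.Helper16.JE.T10
import Pool.Agent.Helper65.JE.PP

/-! T14a: the inductive step. -/

open MeasureTheory Filter Topology Finset
open scoped BigOperators ComplexConjugate

namespace Pool.Agent.JE.H31

set_option linter.unusedSectionVars false

section
variable {X : Type} [MeasurableSpace X] {μ : Measure X} [IsProbabilityMeasure μ]

theorem wt_int (B' : Finset ℝ) (t : ℝ → ℝ) (h : ∀ b ∈ B', ∃ m : ℤ, t b = m) (n : ℕ) :
    wt B' t n = 1 := by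
  unfold wt
  refine Finset.prod_eq_one fun b hb => ?_
  obtain ⟨m, hm⟩ := h b hb
  rw [hm, e_eq_one_iff]
  exact ⟨m * sq b n, by push_cast; ring⟩

theorem wt_update (B' : Finset ℝ) (t : ℝ → ℝ) (c a : ℝ) (hc : c ∉ B') (n : ℕ) :
    ∏ b ∈ insert c B', e (Function.update t c a b * (sq b n : ℝ)) =
      e (a * (sq c n : ℝ)) * wt B' t n := by
  rw [Finset.prod_insert hc, Function.update_self]
  congr 1
  unfold wt
  refine Finset.prod_congr rfl fun b hb => ?_
  rw [Function.update_of_ne (by rintro rfl; exact hc hb)]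

theorem PP_use {A : Act X μ} {B B' : Finset ℝ} {c : ℝ} (hc : c ∉ B')
    (h1 : PP A B (insert c B')) (f : ℝ → X → ℂ) (hf : ∀ b, Bdd (f b)) (t : ℝ → ℝ)
    (ht : ∀ b ∈ B', IrrOrInt (t b)) (a : ℝ) (ha : IrrOrInt a)
    (hn : (¬ ∃ m : ℤ, a = m) ∨ ∃ b ∈ B', ¬ ∃ m : ℤ, t b = m) :
    Tendsto (fun N => n2 μ (fun x => avg N (fun n => e (a * (sq c n : ℝ)) *
      (wt B' t n * pr A B f n x)))) atTop (𝓝 0) := by
  have h2 := h1 f hf (Function.update t c a) (by
    intro b hb
    rcases Finset.mem_insert.mp hb with rfl | hb'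
    · rw [Function.update_self]; exact ha
    · rw [Function.update_of_ne (by rintro rfl; exact hc hb')]; exact ht b hb')
  have h3 : ¬ ∀ b ∈ insert c B', ∃ m : ℤ, Function.update t c a b = m := by
    intro hall
    rcases hn with hn | ⟨b, hb, hn⟩
    · apply hn
      have := hall c (mem_insert_self _ _)
      rwa [Function.update_self] at this
    · apply hn
      have := hall b (mem_insert_of_mem hb)
      rwa [Function.update_of_ne (by rintro rfl; exact hc hb)] at this
  simp only [h3, if_false, zero_mul, sub_zero, wt_update B' t c a hc] at h2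
  refine h2.congr fun N => ?_
  congr 1
  funext x
  congr 1
  funext n
  unfold pr
  ring

/-- the averages -/
noncomputable def AN (A : Act X μ) (B : Finset ℝ) (c : ℝ) (w : ℕ → ℂ) (F : ℝ → X → ℂ)
    (u : X → ℂ) (N : ℕ) (x : X) : ℂ :=
  avg N (fun n => w n * (u (A.S (sq c n) x) * pr A B F n x))

/-- the dual functions -/
noncomputable def FN (A : Act X μ) (B : Finset ℝ) (c : ℝ) (w : ℕ → ℂ) (F : ℝ → X → ℂ)
    (g : ℕ → X → ℂ) (N n : ℕ) (y : X) : ℂ :=
  w n * (g N (A.S (-sq c n) y) * ∏ b ∈ B, F b (A.S (sq b n - sq c n) y))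

theorem bm_AN (A : Act X μ) (B : Finset ℝ) (c : ℝ) (w : ℕ → ℂ) (F : ℝ → X → ℂ)
    (hF : ∀ b, Bdd (F b)) (u : X → ℂ) (hu : BM u) (N : ℕ) : BM (AN A B c w F u N) :=
  BM.avg N (fun n x => w n * (u (A.S (sq c n) x) * pr A B F n x))
    fun n => (BM.const (w n)).mul ((hu.comp A _).mul (bdd_pr A B F hF n).bm)

theorem bdd_AN (A : Act X μ) (B : Finset ℝ) (c : ℝ) (w : ℕ → ℂ) (hw : ∀ n, ‖w n‖ = 1)
    (F : ℝ → X → ℂ) (hF : ∀ b, Bdd (F b)) (u : X → ℂ) (hu : Bdd u) (N : ℕ) :
    Bdd (AN A B c w F u N) :=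
  Bdd.avg N (fun n x => w n * (u (A.S (sq c n) x) * pr A B F n x))
    fun n => ((hu.comp A _).mul (bdd_pr A B F hF n)).smul (hw n).le

theorem bdd_FN (A : Act X μ) (B : Finset ℝ) (c : ℝ) (w : ℕ → ℂ) (hw : ∀ n, ‖w n‖ = 1)
    (F : ℝ → X → ℂ) (hF : ∀ b, Bdd (F b)) (g : ℕ → X → ℂ) (hg : ∀ N, Bdd (g N)) (N n : ℕ) :
    Bdd (FN A B c w F g N n) :=
  (((hg N).comp A (-sq c n)).mul
    (Bdd.prod B (fun b x => F b (A.S (sq b n - sq c n) x)) fun b _ =>
      (hF b).comp A _)).smul (hw n).le

theorem pairing (A : Act X μ) (B : Finset ℝ) (c : ℝ) (w : ℕ → ℂ) (hw : ∀ n, ‖w n‖ = 1)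
    (F : ℝ → X → ℂ) (hF : ∀ b, Bdd (F b)) (g : ℕ → X → ℂ) (hg : ∀ N, Bdd (g N)) (u : X → ℂ)
    (hu : BM u) (N : ℕ) :
    ∫ x, avg N (fun n => FN A B c w F g N n x) * u x ∂μ = ∫ x, g N x * AN A B c w F u N x ∂μ := by
  have hFN := bdd_FN A B c w hw F hF g hg N
  have h1 : ∀ x, avg N (fun n => FN A B c w F g N n x) * u x =
      avg N (fun n => FN A B c w F g N n x * u x) := fun x => (avg_mul_right N _ _).symm
  have h2 : ∀ x, g N x * AN A B c w F u N x =
      avg N (fun n => g N x * (w n * (u (A.S (sq c n) x) * pr A B F n x))) :=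
    fun x => (avg_mul N _ _).symm
  simp only [h1, h2]
  rw [integral_avg N (fun n x => FN A B c w F g N n x * u x) fun n => (hFN n).bm.mul hu,
    integral_avg N (fun n x => g N x * (w n * (u (A.S (sq c n) x) * pr A B F n x)))
      fun n => (hg N).bm.mul
        ((BM.const (w n)).mul ((hu.comp A _).mul (bdd_pr A B F hF n).bm))]
  congr 1
  funext n
  rw [← integral_comp A ((hFN n).bm.mul hu).1 (sq c n)]
  congr 1
  funext x
  have h3 : ∀ b, A.S (sq b n - sq c n) (A.S (sq c n) x) = A.S (sq b n) x := by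
    intro b
    rw [← A.add, sub_add_cancel]
  have h4 : A.S (-sq c n) (A.S (sq c n) x) = x := by
    rw [← A.add, neg_add_cancel, A.zero]
  unfold FN pr
  simp only [h3, h4]
  ring

theorem not_null_one (A : Act X μ) (u : X → ℂ) (h : ¬ Null A 1 u) :
    ∃ a > 0, ∃ᶠ H : ℕ in atTop, a ≤ ravg H (fun h => (Cor A [(h : ℤ)] u) ^ 2) := by
  by_contra hc
  push Not at hc
  apply h
  unfold Null
  have e1 : ∀ K : ℕ, av 1 K (fun l => (Cor A (l.map (fun h : ℕ => (h : ℤ))) u) ^ 2) =
      ravg K (fun h => (Cor A [(h : ℤ)] u) ^ 2) := by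
    intro K
    simp [av, ravg]
  simp only [e1]
  rw [Metric.tendsto_atTop]
  intro ε hε
  have h1 := hc ε hε
  obtain ⟨N, hN⟩ := Filter.eventually_atTop.mp h1
  refine ⟨N, fun n hn => ?_⟩
  have h2 := hN n hn
  rw [Real.dist_0_eq_abs, abs_of_nonneg (ravg_nonneg _ fun _ _ => sq_nonneg _)]
  exact h2

/-- pairing with the dual function of a null sequence of averages -/
theorem norm_pair_le (A : Act X μ) (B : Finset ℝ) (c : ℝ) (w : ℕ → ℂ)
    (F : ℝ → X → ℂ) (hF : ∀ b, Bdd (F b)) (g : ℕ → X → ℂ) (hg : ∀ N, Bdd (g N)) (u : X → ℂ)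
    (hu : BM u) (N : ℕ) :
    ‖∫ x, g N x * AN A B c w F u N x ∂μ‖ ≤ n2 μ (AN A B c w F u N) := by
  have hb := bm_AN A B c w F hF u hu N
  exact (norm_integral_le_n2 ((hg N).bm.mul hb)).trans (n2_mul_le (hg N).le hb)

theorem core (A : Act X μ) (hte : ∀ m : ℕ, 1 ≤ m → Ergodic (A.S m) μ) (B B' : Finset ℝ) (c : ℝ)
    (hcB : c ∉ B) (hcB' : c ∉ B') (s : ℕ) (hs : 1 ≤ s)
    (hsc : ∀ f : ℝ → X → ℂ, (∀ b, Bdd (f b)) → Null A s (f c) →
      ∀ w : ℕ → ℕ → ℂ, (∀ N n, ‖w N n‖ ≤ 1) →
      Tendsto (fun N => n2 μ (fun x => avg N (fun n => w N n * f c (A.S (sq c n) x) *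
        ∏ b ∈ B, f b (A.S (sq b n) x)))) atTop (𝓝 0))
    (h1 : PP A B (insert c B')) (f : ℝ → X → ℂ) (hf : ∀ b, Bdd (f b)) (t : ℝ → ℝ)
    (ht : ∀ b ∈ B', IrrOrInt (t b))
    (H : (∃ b ∈ B', ¬ ∃ m : ℤ, t b = m) ∨
      ((∀ b ∈ B', ∃ m : ℤ, t b = m) ∧ ∫ x, f c x ∂μ = 0)) :
    Tendsto (fun N => n2 μ (AN A B c (wt B' t) f (f c) N)) atTop (𝓝 0) := by
  rw [tendsto_iff_ultrafilter]
  intro U hU
  set w := wt B' t with hwdef
  have hw : ∀ n, ‖w n‖ = 1 := norm_wt B' t
  set g : ℕ → X → ℂ := fun N x => conj (AN A B c w f (f c) N x) with hgdef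
  have hg : ∀ N, Bdd (g N) := fun N => (bdd_AN A B c w hw f hf (f c) (hf c) N).conj
  set E : ℕ → X → ℂ := fun N x => avg N (fun n => FN A B c w f g N n x) with hEdef
  have hE : ∀ N, Bdd (E N) := fun N => Bdd.avg N _ (bdd_FN A B c w hw f hf g hg N)
  obtain ⟨φ, hφ, hlim⟩ := exists_weak_lim (μ := μ) U E hE
  have hpair : ∀ u : X → ℂ, BM u → ∀ N, ∫ x, E N x * u x ∂μ =
      ∫ x, g N x * AN A B c w f u N x ∂μ := fun u hu N => pairing A B c w hw f hf g hg u hu N
  -- a general principle
  have hzero : ∀ u : X → ℂ, BM u →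
      Tendsto (fun N => n2 μ (AN A B c w f u N)) atTop (𝓝 0) → ∫ x, φ x * u x ∂μ = 0 := by
    intro u hu h
    have h2 : Tendsto (fun N => ∫ x, E N x * u x ∂μ) U (𝓝 0) := by
      rw [tendsto_zero_iff_norm_tendsto_zero]
      refine squeeze_zero (fun _ => norm_nonneg _) (fun N => ?_) (h.mono_left hU)
      rw [hpair u hu N]
      exact norm_pair_le A B c w f hf g hg u hu N
    exact tendsto_nhds_unique (hlim u hu) h2
  set c0 : ℂ := ∫ x, φ x ∂μ with hc0def
  have hc0n : ‖c0‖ ≤ 1 := hφ.norm_integral_le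
  -- in case (i) the mean of `φ` vanishes
  have hc0 : (∃ b ∈ B', ¬ ∃ m : ℤ, t b = m) → c0 = 0 := by
    intro hi
    have h2 := hzero (fun _ => 1) (BM.const 1) (by
      have h3 := PP_use hcB' h1 f hf t ht 0 (Or.inr ⟨0, by simp⟩) (Or.inr hi)
      refine h3.congr fun N => ?_
      congr 1
      funext x
      unfold AN
      congr 1
      funext n
      rw [zero_mul, e_zero]
      ring)
    simpa using h2
  set f0 : X → ℂ := fun x => (1 / 2 : ℂ) * (φ x - c0) with hf0def
  have hf0 : Bdd f0 := by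
    refine ⟨(measurable_const).mul (hφ.meas.sub measurable_const), fun x => ?_⟩
    rw [hf0def]
    simp only
    rw [norm_mul]
    have h2 : ‖φ x - c0‖ ≤ 2 := (norm_sub_le _ _).trans (by linarith [hφ.le x])
    have h3 : ‖(1 / 2 : ℂ)‖ = 1 / 2 := by norm_num
    rw [h3]
    linarith
  have hφf0 : ∀ x, φ x = 2 * f0 x + c0 := by
    intro x
    rw [hf0def]
    ring
  have hf0i : ∫ x, f0 x ∂μ = 0 := by
    rw [hf0def, integral_const_mul, integral_sub hφ.integrable (integrable_const _)]
    simp [hc0def]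
  have hφu : ∀ u : X → ℂ, BM u → ∫ x, φ x * u x ∂μ =
      2 * ∫ x, f0 x * u x ∂μ + c0 * ∫ x, u x ∂μ := by
    intro u hu
    rw [← integral_const_mul, ← integral_const_mul, ← integral_add
      ((hf0.bm.mul hu).integrable.const_mul 2) (hu.integrable.const_mul c0)]
    refine integral_congr_ae (Eventually.of_forall fun x => ?_)
    simp only
    rw [hφf0 x]
    ring
  have hconj0 : ∫ x, conj (f0 x) ∂μ = 0 := by
    rw [integral_conj, hf0i, map_zero]
  -- the functions of the degree lowering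
  set G : ℕ → ℕ → X → ℂ := fun N n y => (1 / 2 : ℂ) * (FN A B c w f g N n y - c0) with hGdef
  have hG : ∀ N n, Bdd (G N n) := by
    intro N n
    have h2 := bdd_FN A B c w hw f hf g hg N n
    refine ⟨(measurable_const).mul (h2.meas.sub measurable_const), fun x => ?_⟩
    rw [hGdef]
    simp only
    rw [norm_mul]
    have h2 : ‖FN A B c w f g N n x - c0‖ ≤ 2 := (norm_sub_le _ _).trans (by linarith [h2.le x])
    have h3 : ‖(1 / 2 : ℂ)‖ = 1 / 2 := by norm_num
    rw [h3]
    linarith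
  have hW : ∀ u : X → ℂ, Bdd u →
      Tendsto (fun N => avg N (fun n => ∫ x, G N n x * u x ∂μ)) U (𝓝 (∫ x, f0 x * u x ∂μ)) := by
    intro u hu
    have h2 : ∀ᶠ N : ℕ in atTop, (1 / 2 : ℂ) * ((∫ x, E N x * u x ∂μ) - c0 * ∫ x, u x ∂μ) =
        avg N (fun n => ∫ x, G N n x * u x ∂μ) := by
      filter_upwards [eventually_ge_atTop 1] with N hN
      have h3 : ∀ n, ∫ x, G N n x * u x ∂μ =
          (1 / 2 : ℂ) * ((∫ x, FN A B c w f g N n x * u x ∂μ) - c0 * ∫ x, u x ∂μ) := by
        intro n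
        rw [← integral_const_mul, ← integral_sub
          (((bdd_FN A B c w hw f hf g hg N n).mul hu).integrable) (hu.integrable.const_mul c0),
          ← integral_const_mul]
        refine integral_congr_ae (Eventually.of_forall fun x => ?_)
        simp only [hGdef]
        ring
      simp only [h3]
      rw [avg_mul, avg_sub, avg_const N hN]
      congr 2
      rw [← integral_avg N (fun n x => FN A B c w f g N n x * u x) fun n =>
        ((bdd_FN A B c w hw f hf g hg N n).mul hu).bm]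
      simp only [avg_mul_right, hEdef]
    have h4 : Tendsto (fun N => (1 / 2 : ℂ) * ((∫ x, E N x * u x ∂μ) - c0 * ∫ x, u x ∂μ)) U
        (𝓝 ((1 / 2 : ℂ) * ((∫ x, φ x * u x ∂μ) - c0 * ∫ x, u x ∂μ))) :=
      ((hlim u hu.bm).sub_const _).const_mul _
    have h5 : (1 / 2 : ℂ) * ((∫ x, φ x * u x ∂μ) - c0 * ∫ x, u x ∂μ) = ∫ x, f0 x * u x ∂μ := by
      rw [hφu u hu.bm]
      ring
    rw [h5] at h4
    exact h4.congr' (h2.filter_mono hU)
  have hNice : ∀ k : ℤ, Nice A B c (fun N n => Dl A k (G N n)) := by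
    intro k
    have hH : Nice A B c (fun N n y => g N (A.S (-sq c n) y) *
      ∏ b ∈ B, f b (A.S (sq b n - sq c n) y)) := Nice.base g f hg hf
    rcases H with hi | ⟨hi, -⟩
    · have h0 := hc0 hi
      refine (Nice.smul (1 / 4 : ℂ) _ (hH.dl k)).congr fun N n y => ?_
      simp only [hGdef, Dl, h0, FN]
      have h6 : w n * conj (w n) = 1 := by
        rw [Complex.mul_conj, Complex.normSq_eq_norm_sq, hw n]
        simp
      have h7 : conj (1 / 2 : ℂ) = 1 / 2 := by
        rw [map_div₀, map_one, map_ofNat]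
      simp only [sub_zero, map_mul, h7]
      linear_combination (1 / 4 : ℂ) * (g N (A.S (-sq c n) (A.S k y)) *
        (∏ b ∈ B, f b (A.S (sq b n - sq c n) (A.S k y)))) * (conj (g N (A.S (-sq c n) y)) *
        conj (∏ b ∈ B, f b (A.S (sq b n - sq c n) y))) * h6
    · have hw1 : ∀ n, w n = 1 := wt_int B' t hi
      have hG' : Nice A B c G := by
        refine (Nice.smul (1 / 2 : ℂ) _ (Nice.add _ _ hH (Nice.const (-c0)))).congr
          fun N n y => ?_
        simp only [hGdef, FN, hw1]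
        ring
      exact hG'.dl k
  have hstar : ∀ (k : List ℤ) (χ : X → ℂ) (α : ℝ), k ≠ [] → IsEig A χ α → e α ≠ 1 →
      Tendsto (fun N => avg N (fun n => ∫ x, cub A k (G N n) x * χ x ∂μ)) U (𝓝 0) := by
    intro k χ α hk hχ hα
    have hirr := eig_irrational hχ hte hα
    obtain ⟨k0, l, rfl⟩ := List.exists_cons_of_ne_nil hk
    have h2 : Nice A B c (fun N n => cub A l (Dl A k0 (G N n))) := (hNice k0).cub l
    have h3 := h2.lim χ α hχ (fun F hF => by
      have h4 := PP_use hcB' h1 F hF (fun _ => 0) (fun _ _ => Or.inr ⟨0, by simp⟩) α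
        (Or.inl hirr) (Or.inl (by
          rintro ⟨m, hm⟩
          exact hirr.ne_int m hm))
      refine h4.congr fun N => ?_
      congr 1
      funext x
      congr 1
      funext n
      rw [wt_int B' (fun _ => 0) (fun _ _ => ⟨0, by simp⟩), one_mul])
    exact h3.mono_left hU
  -- `f0` vanishes
  have hmain : ∫ x, f0 x * conj (f0 x) ∂μ = 0 := by
    by_contra hne
    have hnn1 : ¬ Null A s (fun x => conj (f0 x)) := by
      intro hnull
      have h2 := hsc (Function.update f c (fun x => conj (f0 x))) (by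
        intro b
        by_cases hb : b = c
        · subst hb
          rw [Function.update_self]
          exact hf0.conj
        · rw [Function.update_of_ne hb]
          exact hf b) (by rwa [Function.update_self]) (fun _ n => w n) (fun _ n => (hw n).le)
      have h3 := hzero (fun x => conj (f0 x)) hf0.conj.bm (by
        refine h2.congr fun N => ?_
        congr 1
        funext x
        unfold AN pr
        congr 1
        funext n
        rw [Function.update_self, mul_assoc]
        congr 2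
        refine Finset.prod_congr rfl fun b hb => ?_
        rw [Function.update_of_ne (by rintro rfl; exact hcB hb)])
      rw [hφu _ hf0.conj.bm, hconj0, mul_zero, add_zero] at h3
      exact hne (by simpa using h3)
    have hnn2 : ¬ Null A s f0 := by
      intro hnull
      apply hnn1
      unfold Null at hnull ⊢
      simpa only [cor_conj A f0 hf0] using hnull
    have herg : Ergodic (A.S 1) μ := hte 1 le_rfl
    have hdesc : ∀ s : ℕ, 1 ≤ s → ¬ Null A s f0 → ¬ Null A 1 f0 := by
      intro s hs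
      induction s, hs using Nat.le_induction with
      | base => exact id
      | succ s hs ih =>
        intro h
        have : (U : Filter ℕ).NeBot := U.neBot
        exact ih (degree_lowering A herg (U : Filter ℕ) G hG f0 hf0 hW hstar s hs h)
    obtain ⟨a, ha, hfreq⟩ := not_null_one A f0 (hdesc s hs hnn2)
    obtain ⟨χ, α, hχ, hcor⟩ := eig A herg f0 hf0 a ha hfreq
    have hχb := eig_bdd hχ
    have hne2 : ∫ x, f0 x * conj (χ x) ∂μ ≠ 0 := by
      intro h0
      rw [h0, norm_zero] at hcor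
      have : 0 < a / 16 := by positivity
      norm_num at hcor
      linarith
    have hα : e α ≠ 1 := by
      intro h1'
      obtain ⟨z, hz⟩ := eig_const hχ herg h1'
      apply hne2
      have h2 : ∫ x, f0 x * conj (χ x) ∂μ = ∫ x, f0 x * conj z ∂μ := by
        refine integral_congr_ae ?_
        filter_upwards [hz] with x hx
        rw [hx]
      rw [h2, integral_mul_const, hf0i, zero_mul]
    have hirr := eig_irrational hχ hte hα
    have hχ0 : ∫ x, conj (χ x) ∂μ = 0 := by
      rw [integral_conj, eig_integral hχ hα, map_zero]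
    have h3 := hzero (fun x => conj (χ x)) hχb.conj.bm (by
      have h4 := PP_use hcB' h1 f hf t ht (-α) (Or.inl hirr.neg) (Or.inl (by
          rintro ⟨m, hm⟩
          exact hirr.neg.ne_int m hm))
      refine squeeze_zero (fun _ => n2_nonneg _) (fun N => ?_) h4
      have h5 : n2 μ (AN A B c w f (fun x => conj (χ x)) N) =
          n2 μ (fun x => conj (χ x) * avg N (fun n => e (-α * (sq c n : ℝ)) *
            (wt B' t n * pr A B f n x))) := by
        refine n2_congr ?_
        have h6 : ∀ᵐ x ∂μ, ∀ n : ℕ, χ (A.S (sq c n) x) = e (α * (sq c n : ℝ)) * χ x := by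
          rw [ae_all_iff]
          intro n
          have h7 := eig_iter hχ (⌊(n : ℝ) ^ c⌋₊ ^ 2)
          have h8 : ((⌊(n : ℝ) ^ c⌋₊ ^ 2 : ℕ) : ℤ) = sq c n := by
            unfold sq; push_cast; rfl
          have h9 : ((⌊(n : ℝ) ^ c⌋₊ ^ 2 : ℕ) : ℝ) = (sq c n : ℝ) := by
            unfold sq; push_cast; rfl
          rw [h8, h9] at h7
          exact h7
        filter_upwards [h6] with x hx
        unfold AN
        rw [← avg_mul]
        congr 1
        funext n
        beta_reduce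
        rw [hx n, map_mul, ← e_neg, neg_mul]
        ring
      rw [h5]
      exact n2_mul_le hχb.conj.le (BM.avg N _ fun n =>
        (((bdd_pr A B f hf n).smul (hw n).le).smul (norm_e _).le).bm))
    rw [hφu _ hχb.conj.bm, hχ0, mul_zero, add_zero] at h3
    exact hne2 (by simpa using h3)
  -- conclusion
  have hf0ae : ∀ᵐ x ∂μ, f0 x = 0 := by
    have h2 : ∫ x, f0 x * conj (f0 x) ∂μ = ((∫ x, ‖f0 x‖ ^ 2 ∂μ : ℝ) : ℂ) := by
      rw [← integral_complex_ofReal]
      refine integral_congr_ae (Eventually.of_forall fun x => ?_)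
      simp only
      rw [Complex.mul_conj, Complex.normSq_eq_norm_sq]
    rw [h2] at hmain
    have h3 : ∫ x, ‖f0 x‖ ^ 2 ∂μ = 0 := by exact_mod_cast hmain
    have hint : Integrable (fun x => ‖f0 x‖ ^ 2) μ := by
      refine ((hf0.mul hf0.conj).integrable (μ := μ)).norm.congr
        (Eventually.of_forall fun x => ?_)
      simp [pow_two]
    rw [integral_eq_zero_iff_of_nonneg (fun x => by positivity) hint] at h3
    filter_upwards [h3] with x hx
    simpa using hx
  have hφfc : ∫ x, φ x * f c x ∂μ = 0 := by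
    have h2 : ∫ x, f0 x * f c x ∂μ = 0 := by
      rw [← integral_zero X ℂ (μ := μ)]
      refine integral_congr_ae ?_
      filter_upwards [hf0ae] with x hx
      rw [hx, zero_mul]
    rw [hφu _ (hf c).bm, h2, mul_zero, zero_add]
    rcases H with hi | ⟨-, hi⟩
    · rw [hc0 hi, zero_mul]
    · rw [hi, mul_zero]
  have h2 := hlim (f c) (hf c).bm
  rw [hφfc] at h2
  have h3 : ∀ N, ∫ x, E N x * f c x ∂μ = ((n2 μ (AN A B c w f (f c) N) ^ 2 : ℝ) : ℂ) := by
    intro N
    rw [hpair _ (hf c).bm, n2_sq, ← integral_complex_ofReal]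
    refine integral_congr_ae (Eventually.of_forall fun x => ?_)
    simp only [hgdef]
    rw [mul_comm, Complex.mul_conj, Complex.normSq_eq_norm_sq]
  simp only [h3] at h2
  have h4 : Tendsto (fun N => n2 μ (AN A B c w f (f c) N) ^ 2) U (𝓝 0) := by
    have h5 := (Complex.continuous_re.tendsto _).comp h2
    rw [Complex.zero_re] at h5
    refine h5.congr fun N => ?_
    simp only [Function.comp_apply]
    exact Complex.ofReal_re _
  have h6 := (Real.continuous_sqrt.tendsto _).comp h4
  rw [Real.sqrt_zero] at h6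
  refine h6.congr fun N => ?_
  simp only [Function.comp_apply]
  exact Real.sqrt_sq (n2_nonneg _)

theorem pr_insert (A : Act X μ) (B : Finset ℝ) (c : ℝ) (hc : c ∉ B) (f : ℝ → X → ℂ) (n : ℕ)
    (x : X) : ∏ b ∈ insert c B, f b (A.S (sq b n) x) = f c (A.S (sq c n) x) * pr A B f n x := by
  rw [Finset.prod_insert hc]
  rfl

theorem PP_step_of (A : Act X μ) (hte : ∀ m : ℕ, 1 ≤ m → Ergodic (A.S m) μ) (B B' : Finset ℝ)
    (c : ℝ) (hcB : c ∉ B) (hcB' : c ∉ B') (s : ℕ) (hs : 1 ≤ s)
    (hsc : ∀ f : ℝ → X → ℂ, (∀ b, Bdd (f b)) → Null A s (f c) →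
      ∀ w : ℕ → ℕ → ℂ, (∀ N n, ‖w N n‖ ≤ 1) →
      Tendsto (fun N => n2 μ (fun x => avg N (fun n => w N n * f c (A.S (sq c n) x) *
        ∏ b ∈ B, f b (A.S (sq b n) x)))) atTop (𝓝 0))
    (h1 : PP A B (insert c B')) : PP A (insert c B) B' := by
  intro f hf t ht
  by_cases hi : ∀ b ∈ B', ∃ m : ℤ, t b = m
  · -- all phases are trivial
    simp only [if_pos hi, one_mul]
    set m : ℂ := ∫ x, f c x ∂μ with hm
    have hmn : ‖m‖ ≤ 1 := (hf c).norm_integral_le
    set v : X → ℂ := fun x => (1 / 2 : ℂ) * (f c x - m) with hv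
    have hvb : Bdd v := by
      refine ⟨(measurable_const).mul ((hf c).meas.sub measurable_const), fun x => ?_⟩
      rw [hv]
      simp only
      rw [norm_mul]
      have h2 : ‖f c x - m‖ ≤ 2 := (norm_sub_le _ _).trans (by linarith [(hf c).le x])
      have h3 : ‖(1 / 2 : ℂ)‖ = 1 / 2 := by norm_num
      rw [h3]
      linarith
    have hvi : ∫ x, v x ∂μ = 0 := by
      rw [hv, integral_const_mul, integral_sub (hf c).integrable (integrable_const _)]
      simp [hm]
    have hfv : ∀ x, f c x = 2 * v x + m := by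
      intro x
      rw [hv]
      ring
    have hf' : ∀ b, Bdd (Function.update f c v b) := by
      intro b
      by_cases hb : b = c
      · subst hb
        rw [Function.update_self]
        exact hvb
      · rw [Function.update_of_ne hb]
        exact hf b
    have h2 := core A hte B B' c hcB hcB' s hs hsc h1 (Function.update f c v) hf' t ht
      (Or.inr ⟨hi, by rw [Function.update_self]; exact hvi⟩)
    rw [Function.update_self] at h2
    have h3 := h1 f hf (fun _ => 0) (fun _ _ => Or.inr ⟨0, by simp⟩)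
    have h4 : ∀ b ∈ insert c B', ∃ m : ℤ, (0 : ℝ) = m := fun _ _ => ⟨0, by simp⟩
    simp only [if_pos h4, one_mul, zero_mul, e_zero, Finset.prod_const_one] at h3
    have h5 : Tendsto (fun N => 2 * n2 μ (AN A B c (wt B' t) (Function.update f c v) v N) +
        ‖m‖ * n2 μ (fun x => avg N (fun n => ∏ b ∈ B, f b (A.S (sq b n) x)) -
          ∏ b ∈ B, ∫ y, f b y ∂μ)) atTop (𝓝 0) := by
      have := (h2.const_mul 2).add (h3.const_mul ‖m‖)
      simpa using this
    refine squeeze_zero (fun _ => n2_nonneg _) (fun N => ?_) h5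
    have e1 : ∀ x, avg N (fun n => (∏ b ∈ B', e (t b * (sq b n : ℝ))) *
        ∏ b ∈ insert c B, f b (A.S (sq b n) x)) - ∏ b ∈ insert c B, ∫ y, f b y ∂μ =
        2 * AN A B c (wt B' t) (Function.update f c v) v N x +
        m * (avg N (fun n => ∏ b ∈ B, f b (A.S (sq b n) x)) - ∏ b ∈ B, ∫ y, f b y ∂μ) := by
      intro x
      rw [Finset.prod_insert hcB, ← hm]
      unfold AN
      rw [mul_sub, ← avg_mul, ← avg_mul, ← add_sub_assoc, ← avg_add]
      congr 2
      funext n
      have e2 : (∏ b ∈ B', e (t b * (sq b n : ℝ))) = 1 := wt_int B' t hi n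
      have e3 : wt B' t n = 1 := wt_int B' t hi n
      have e4 : pr A B (Function.update f c v) n x = pr A B f n x := by
        unfold pr
        refine Finset.prod_congr rfl fun b hb => ?_
        rw [Function.update_of_ne (by rintro rfl; exact hcB hb)]
      rw [e2, e3, e4, pr_insert A B c hcB f n x, hfv]
      unfold pr
      ring
    simp only [e1]
    have b1 : BM (fun x => 2 * AN A B c (wt B' t) (Function.update f c v) v N x) :=
      (BM.const 2).mul (bm_AN A B c _ _ hf' v hvb.bm N)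
    have b2 : BM (fun x => avg N (fun n => ∏ b ∈ B, f b (A.S (sq b n) x)) -
        ∏ b ∈ B, ∫ y, f b y ∂μ) :=
      (BM.avg N (fun n x => ∏ b ∈ B, f b (A.S (sq b n) x)) fun n => (bdd_pr A B f hf n).bm).sub
        (BM.const _)
    refine (n2_add_le b1 ((BM.const m).mul b2)).trans ?_
    rw [n2_smul, n2_smul]
    have h6 : ‖(2 : ℂ)‖ = 2 := by norm_num
    rw [h6]
  · -- a nontrivial phase
    have hi' : ∃ b ∈ B', ¬ ∃ m : ℤ, t b = m := by
      push Not at hi
      obtain ⟨b, hb, h⟩ := hi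
      exact ⟨b, hb, fun ⟨m, hm⟩ => h m hm⟩
    have h2 := core A hte B B' c hcB hcB' s hs hsc h1 f hf t ht (Or.inl hi')
    simp only [if_neg hi, zero_mul, sub_zero]
    refine h2.congr fun N => ?_
    congr 1
    funext x
    unfold AN
    congr 1
    funext n
    rw [pr_insert A B c hcB f n x]
    rfl

end

end Pool.Agent.JE.H31
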