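import Pool.Agent.Helper65.JE.Kit

/-! Weak limits of bounded functions along an ultrafilter. -/

open MeasureTheory Filter Topology Finset
open scoped BigOperators ComplexConjugate

namespace Pool.Agent.JE

theorem exists_weak_lim_hilbert {H : Type*} [NormedAddCommGroup H] [InnerProductSpace ℂ H]
    [CompleteSpace H] (U : Ultrafilter ℕ) (a : ℕ → H) (ha : ∀ N, ‖a N‖ ≤ 1) :
    ∃ b : H, ∀ v, Tendsto (fun N => inner ℂ (a N) v) U (𝓝 (inner ℂ b v)) := by
  set T : ℕ → WeakDual ℂ H := fun N =>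
    StrongDual.toWeakDual (InnerProductSpace.toDual ℂ H (a N)) with hT
  have hcomp := WeakDual.isCompact_closedBall (𝕜 := ℂ) (E := H) 0 1
  have hmem : ∀ N, T N ∈ WeakDual.toStrongDual ⁻¹' Metric.closedBall (0 : StrongDual ℂ H) 1 := by
    intro N
    rw [Set.mem_preimage, mem_closedBall_zero_iff]
    have : WeakDual.toStrongDual (T N) = InnerProductSpace.toDual ℂ H (a N) := rfl
    rw [this, LinearIsometryEquiv.norm_map]
    exact ha N
  obtain ⟨ℓ, -, hℓ⟩ := hcomp.ultrafilter_le_nhds (U.map T) (by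
    rw [le_principal_iff, Ultrafilter.coe_map]
    exact Filter.mem_map.mpr (Filter.univ_mem' hmem))
  refine ⟨(InnerProductSpace.toDual ℂ H).symm (WeakDual.toStrongDual ℓ), fun v => ?_⟩
  rw [InnerProductSpace.toDual_symm_apply]
  have h1 : Tendsto T U (𝓝 ℓ) := hℓ
  have h2 := ((WeakDual.eval_continuous (𝕜 := ℂ) v).tendsto ℓ).comp h1
  exact h2

section
variable {X : Type} [MeasurableSpace X] {μ : Measure X} [IsProbabilityMeasure μ]

theorem exists_weak_lim_L2 (U : Ultrafilter ℕ) (E : ℕ → X → ℂ) (hE : ∀ N, Bdd (E N)) :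
    ∃ φ : X → ℂ, Measurable φ ∧ MemLp φ 2 μ ∧
      ∀ u : X → ℂ, BM u →
      Tendsto (fun N => ∫ x, E N x * u x ∂μ) U (𝓝 (∫ x, φ x * u x ∂μ)) := by
  have hmem : ∀ N, MemLp (fun x => conj (E N x)) 2 μ := fun N => (hE N).conj.bm.memLp 2
  have hnorm : ∀ N, ‖(hmem N).toLp (fun x => conj (E N x))‖ ≤ 1 := by
    intro N
    rw [Lp.norm_toLp, ← n2_eq (hmem N)]
    exact n2_le_one (hE N).conj.le
  obtain ⟨b, hb⟩ := exists_weak_lim_hilbert U (fun N => (hmem N).toLp (fun x => conj (E N x))) hnorm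
  have hbm : MemLp (b : X → ℂ) 2 μ := Lp.memLp b
  have hbs : Measurable (b : X → ℂ) := (Lp.stronglyMeasurable b).measurable
  refine ⟨fun x => conj (b x), Complex.continuous_conj.measurable.comp hbs, ?_, ?_⟩
  · refine hbm.of_le (Complex.continuous_conj.comp_aestronglyMeasurable hbm.1)
      (Eventually.of_forall fun x => ?_)
    simp
  · intro u hu
    have hum := hu.memLp (μ := μ) 2
    have h1 := hb (hum.toLp u)
    rw [MeasureTheory.L2.inner_def] at h1
    have h2 : ∫ x, inner ℂ (b x) ((hum.toLp u) x) ∂μ = ∫ x, conj (b x) * u x ∂μ := by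
      refine integral_congr_ae ?_
      filter_upwards [hum.coeFn_toLp] with x hx
      rw [hx, RCLike.inner_apply, mul_comm]
    rw [h2] at h1
    refine h1.congr fun N => ?_
    rw [MeasureTheory.L2.inner_def]
    refine integral_congr_ae ?_
    filter_upwards [hum.coeFn_toLp, (hmem N).coeFn_toLp] with x hx hx'
    rw [hx, hx', RCLike.inner_apply, Complex.conj_conj, mul_comm]

theorem ae_norm_le_one_of_pairing {φ : X → ℂ} (hφ : Measurable φ) (hφ2 : MemLp φ 2 μ)
    (h : ∀ u : X → ℂ, Bdd u → ‖∫ x, φ x * u x ∂μ‖ ≤ ∫ x, ‖u x‖ ∂μ) :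
    ∀ᵐ x ∂μ, ‖φ x‖ ≤ 1 := by
  classical
  set s : Set X := {x | 1 < ‖φ x‖} with hs
  have hsm : MeasurableSet s := measurableSet_lt measurable_const hφ.norm
  set u : X → ℂ := s.indicator (fun x => conj (φ x) / (‖φ x‖ : ℂ)) with hu
  have hum : Measurable u := by
    refine Measurable.indicator ?_ hsm
    exact (Complex.continuous_conj.measurable.comp hφ).div
      (Complex.measurable_ofReal.comp hφ.norm)
  have hun : ∀ x, ‖u x‖ = s.indicator (fun _ => (1 : ℝ)) x := by
    intro x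
    by_cases hx : x ∈ s
    · rw [hu, Set.indicator_of_mem hx, Set.indicator_of_mem hx, norm_div, RCLike.norm_conj,
        Complex.norm_real, norm_norm, div_self]
      have : 1 < ‖φ x‖ := hx
      linarith
    · rw [hu, Set.indicator_of_notMem hx, Set.indicator_of_notMem hx, norm_zero]
  have hub : Bdd u := ⟨hum, fun x => by
    rw [hun]
    exact Set.indicator_le' (fun _ _ => le_rfl) (fun _ _ => zero_le_one) x⟩
  have h1 := h u hub
  have hint : Integrable φ μ := hφ2.integrable (by norm_num)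
  have e1 : ∀ x, φ x * u x = ((s.indicator (fun x => ‖φ x‖) x : ℝ) : ℂ) := by
    intro x
    by_cases hx : x ∈ s
    · rw [hu, Set.indicator_of_mem hx, Set.indicator_of_mem hx]
      have h3 : (‖φ x‖ : ℂ) ≠ 0 := by
        have : 1 < ‖φ x‖ := hx
        exact_mod_cast (by linarith : ‖φ x‖ ≠ 0)
      rw [← mul_div_assoc, Complex.mul_conj, Complex.normSq_eq_norm_sq]
      push_cast
      field_simp
    · rw [hu, Set.indicator_of_notMem hx, Set.indicator_of_notMem hx]
      simp
  simp only [e1, hun] at h1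
  rw [integral_complex_ofReal, Complex.norm_real] at h1
  have i1 : Integrable (s.indicator (fun x => ‖φ x‖)) μ := hint.norm.indicator hsm
  have i2 : Integrable (s.indicator (fun _ => (1 : ℝ))) μ :=
    (integrable_const (1 : ℝ)).indicator hsm
  have h2 : ∫ x, (s.indicator (fun x => ‖φ x‖) x - s.indicator (fun _ => (1 : ℝ)) x) ∂μ ≤ 0 := by
    rw [integral_sub i1 i2]
    linarith [le_abs_self (∫ x, s.indicator (fun x => ‖φ x‖) x ∂μ), Real.norm_eq_abs
      (∫ x, s.indicator (fun x => ‖φ x‖) x ∂μ)]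
  have hnn : 0 ≤ᵐ[μ] fun x => s.indicator (fun x => ‖φ x‖) x - s.indicator (fun _ => (1 : ℝ)) x := by
    refine Eventually.of_forall fun x => ?_
    by_cases hx : x ∈ s
    · simp only [Set.indicator_of_mem hx, Pi.zero_apply]
      have : 1 < ‖φ x‖ := hx
      linarith
    · simp [Set.indicator_of_notMem hx]
  have h3 := (integral_eq_zero_iff_of_nonneg_ae hnn (i1.sub i2)).mp
    (le_antisymm h2 (integral_nonneg_of_ae hnn))
  filter_upwards [h3] with x hx
  by_contra hc
  push Not at hc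
  have hxs : x ∈ s := hc
  simp only [Set.indicator_of_mem hxs, Pi.zero_apply] at hx
  linarith

theorem exists_weak_lim (U : Ultrafilter ℕ) (E : ℕ → X → ℂ) (hE : ∀ N, Bdd (E N)) :
    ∃ φ : X → ℂ, Bdd φ ∧
      ∀ u : X → ℂ, BM u →
      Tendsto (fun N => ∫ x, E N x * u x ∂μ) U (𝓝 (∫ x, φ x * u x ∂μ)) := by
  classical
  obtain ⟨φ, hφ, hφ2, hlim⟩ := exists_weak_lim_L2 (μ := μ) U E hE
  have hae : ∀ᵐ x ∂μ, ‖φ x‖ ≤ 1 := by
    refine ae_norm_le_one_of_pairing hφ hφ2 fun u hu => ?_
    refine le_of_tendsto (hlim u hu.bm).norm (Eventually.of_forall fun N => ?_)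
    refine (norm_integral_le_integral_norm _).trans ?_
    refine integral_mono ((hE N).mul hu).integrable.norm hu.integrable.norm fun x => ?_
    simp only
    rw [norm_mul]
    exact mul_le_of_le_one_left (norm_nonneg _) ((hE N).le x)
  refine ⟨{x | ‖φ x‖ ≤ 1}.indicator φ, ⟨hφ.indicator (measurableSet_le hφ.norm measurable_const),
    fun x => ?_⟩, fun u hu => ?_⟩
  · by_cases hx : x ∈ {x | ‖φ x‖ ≤ 1}
    · rw [Set.indicator_of_mem hx]; exact hx
    · rw [Set.indicator_of_notMem hx]; simp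
  · have : ∫ x, {x | ‖φ x‖ ≤ 1}.indicator φ x * u x ∂μ = ∫ x, φ x * u x ∂μ := by
      refine integral_congr_ae ?_
      filter_upwards [hae] with x hx
      rw [Set.indicator_of_mem (by exact hx : x ∈ {x | ‖φ x‖ ≤ 1})]
    rw [this]
    exact hlim u hu

end

end Pool.Agent.JE
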